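import Pool.Agent.H373R2.T7.Fund
import Pool.Agent.H318R2.Cr.Prod
import Pool.Agent.J4H81.GQ.Stm

/-! (GQ TRI): upper bound sieve for three linear forms with leading coefficient `primorial w`. -/

set_option autoImplicit false

namespace Pool.Agent.J4H67.GQ

open Finset Filter Topology
open Pool.Agent.H373R2.T7 (pz mem_pz nuB nuB_le PerB sys_fund)
open Pool.Agent.H318R2.Cr (V V_pos Pz mem_Pz cz_bounds one_sub_inv_pos)

/-- the bad classes -/
def Q (w : ℕ) (r : Fin 3 → ℕ) (p s : ℕ) : Prop := w < p ∧ ∃ i, p ∣ r i + primorial w * s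

theorem not_dvd {w p : ℕ} (hp : p.Prime) (h : w < p) : ¬ p ∣ primorial w := by
  intro hd
  unfold primorial at hd
  obtain ⟨q, hq, hpq⟩ := (hp.prime.dvd_finsetProd_iff _).1 hd
  rw [mem_filter] at hq
  have h1 := (Nat.prime_dvd_prime_iff_eq hp hq.2).1 hpq
  have h2 := mem_range.1 hq.1
  omega

theorem cls_unique {W p r s s' : ℕ} (hp : p.Prime) (hW : ¬ p ∣ W) (hs : s < p) (hs' : s' < p)
    (h : p ∣ r + W * s) (h' : p ∣ r + W * s') : s = s' := by
  have := Fact.mk hp
  have hW0 : (W : ZMod p) ≠ 0 := by rwa [Ne, ZMod.natCast_eq_zero_iff]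
  have h1 : ((r + W * s : ℕ) : ZMod p) = 0 := (ZMod.natCast_eq_zero_iff _ _).2 h
  have h2 : ((r + W * s' : ℕ) : ZMod p) = 0 := (ZMod.natCast_eq_zero_iff _ _).2 h'
  push_cast at h1 h2
  have h3 : (W : ZMod p) * s = W * s' := by linear_combination h1 - h2
  have h4 : (s : ZMod p) = s' := mul_left_cancel₀ hW0 h3
  have h5 := (ZMod.natCast_eq_natCast_iff' s s' p).1 h4
  rwa [Nat.mod_eq_of_lt hs, Nat.mod_eq_of_lt hs'] at h5

theorem cls_exists {W p : ℕ} (r : ℕ) (hp : p.Prime) (hW : ¬ p ∣ W) : ∃ s < p, p ∣ r + W * s := by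
  have := Fact.mk hp
  have hW0 : (W : ZMod p) ≠ 0 := by rwa [Ne, ZMod.natCast_eq_zero_iff]
  refine ⟨(-(r : ZMod p) / W).val, ZMod.val_lt _, ?_⟩
  rw [← ZMod.natCast_eq_zero_iff]
  push_cast
  rw [ZMod.natCast_zmod_val]
  field_simp
  ring

open Classical in
theorem perB (w : ℕ) (r : Fin 3 → ℕ) : PerB (Q w r) 3 where
  per := by
    intro p n
    unfold Q
    refine and_congr_right fun _ => exists_congr fun i => ?_
    have h : r i + primorial w * n ≡ r i + primorial w * (n % p) [MOD p] :=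
      Nat.ModEq.add_left _ (Nat.ModEq.mul_left _ (Nat.mod_modEq n p).symm)
    exact h.dvd_iff dvd_rfl
  few := by
    intro p hp
    unfold nuB
    rcases Nat.lt_or_ge w p with h | h
    · have hsub : (range p).filter (fun s => Q w r p s) ⊆
          (univ : Finset (Fin 3)).biUnion (fun i => (range p).filter (fun s => p ∣ r i + primorial w * s)) := by
        intro s hs
        rw [mem_filter] at hs
        obtain ⟨h1, -, i, h2⟩ := hs
        exact mem_biUnion.2 ⟨i, mem_univ _, mem_filter.2 ⟨h1, h2⟩⟩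
      refine (card_le_card hsub).trans (card_biUnion_le.trans ?_)
      calc ∑ i : Fin 3, ((range p).filter (fun s => p ∣ r i + primorial w * s)).card
          ≤ ∑ _i : Fin 3, 1 := by
            refine sum_le_sum fun i _ => card_le_one.2 fun s hs s' hs' => ?_
            rw [mem_filter, mem_range] at hs hs'
            exact cls_unique hp (not_dvd hp h) hs.1 hs'.1 hs.2 hs'.2
        _ = 3 := by simp
    · rw [filter_false_of_mem]
      · simp
      · intro s _ hs
        exact absurd hs.1 (by omega)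

/-- two of the forms meet modulo `p` -/
def Bad (r : Fin 3 → ℕ) (p : ℕ) : Prop := ∃ i j, i ≠ j ∧ p ∣ ((r i : ℤ) - r j).natAbs

open Classical in
theorem nu_good {w p : ℕ} (r : Fin 3 → ℕ) (hp : p.Prime) (h : w < p) (hb : ¬ Bad r p) :
    3 ≤ nuB (Q w r) p := by
  choose s hs hd using fun i => cls_exists (W := primorial w) (r i) hp (not_dvd hp h)
  have h3 : (univ : Finset (Fin 3)).card ≤ ((range p).filter (fun a => Q w r p a)).card := by
    refine card_le_card_of_injOn s (fun i _ => ?_) (fun i _ j _ hij => ?_)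
    · rw [coe_filter]
      exact ⟨mem_range.2 (hs i), h, i, hd i⟩
    · by_contra hne
      refine hb ⟨i, j, hne, ?_⟩
      have h1 : (p : ℤ) ∣ ((r i + primorial w * s i : ℕ) : ℤ) := by exact_mod_cast hd i
      have h2 : (p : ℤ) ∣ ((r j + primorial w * s j : ℕ) : ℤ) := by exact_mod_cast hd j
      have h4 := dvd_sub h1 h2
      have hij' : s i = s j := hij
      rw [hij'] at h4
      push_cast at h4
      rw [add_sub_add_right_eq_sub] at h4
      rw [← Int.natCast_dvd_natCast, Int.dvd_natAbs]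
      exact h4
  unfold nuB
  simpa using h3

open Classical in
theorem prod_le {w z : ℕ} (hwz : w ≤ z) (r : Fin 3 → ℕ)
    (hr : ∀ i j, i ≠ j → r i ≠ r j ∧
      (((r i : ℤ) - r j).natAbs.primeFactors.filter (fun p => w < p)).card ≤ 5) :
    ∏ p ∈ pz z, (1 - (nuB (Q w r) p : ℝ) / p) ≤ 8 ^ 30 * (V z / V w) ^ 3 := by
  set P : Finset ℕ := (pz z).filter (fun p => w < p) with hP
  have hPp : ∀ p ∈ P, p.Prime ∧ w < p ∧ p ≤ z := by
    intro p hp
    rw [hP, mem_filter] at hp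
    exact ⟨(mem_pz.1 hp.1).2, hp.2, (mem_pz.1 hp.1).1⟩
  -- the primes up to `w`
  have h1 : ∏ p ∈ pz z, (1 - (nuB (Q w r) p : ℝ) / p) = ∏ p ∈ P, (1 - (nuB (Q w r) p : ℝ) / p) := by
    rw [hP, prod_filter]
    refine prod_congr rfl fun p _ => ?_
    split_ifs with h
    · rfl
    · have : nuB (Q w r) p = 0 := by
        unfold nuB
        rw [card_eq_zero, filter_eq_empty_iff]
        exact fun s _ hs => h hs.1
      rw [this]
      simp
  -- the product of `1 - 1/p`
  have h2 : V z / V w = ∏ p ∈ P, (1 - 1 / (p : ℝ)) := by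
    rw [div_eq_iff (V_pos w).ne', mul_comm]
    have e : Pz z = Pz w ∪ P := by
      ext p
      rw [mem_union, mem_Pz, mem_Pz, hP, mem_filter, mem_pz]
      constructor
      · rintro ⟨h3, h4⟩
        rcases Nat.lt_or_ge w p with h5 | h5
        · exact Or.inr ⟨⟨h4, h3⟩, h5⟩
        · exact Or.inl ⟨h3, h5⟩
      · rintro (⟨h3, h4⟩ | ⟨⟨h3, h4⟩, _⟩)
        · exact ⟨h3, by omega⟩
        · exact ⟨h4, h3⟩
    have hd : Disjoint (Pz w) P := by
      rw [disjoint_left]
      intro p hp hp'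
      have h3 := (mem_Pz.1 hp).2
      have h4 := (hPp p hp').2.1
      omega
    unfold V
    rw [e, prod_union hd]
  rw [h1, h2]
  -- the bad primes
  have hB : (P.filter (fun p => Bad r p)).card ≤ 30 := by
    have hsub : P.filter (fun p => Bad r p) ⊆ ((univ : Finset (Fin 3)).offDiag).biUnion
        (fun q => ((r q.1 : ℤ) - r q.2).natAbs.primeFactors.filter (fun p => w < p)) := by
      intro p hp
      rw [mem_filter] at hp
      obtain ⟨h3, i, j, hij, h4⟩ := hp
      refine mem_biUnion.2 ⟨(i, j), mem_offDiag.2 ⟨mem_univ _, mem_univ _, hij⟩, ?_⟩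
      refine mem_filter.2 ⟨Nat.mem_primeFactors.2 ⟨(hPp p h3).1, h4, ?_⟩, (hPp p h3).2.1⟩
      have := (hr i j hij).1
      show ((r i : ℤ) - r j).natAbs ≠ 0
      omega
    refine (card_le_card hsub).trans (card_biUnion_le.trans ?_)
    calc ∑ q ∈ (univ : Finset (Fin 3)).offDiag,
          (((r q.1 : ℤ) - r q.2).natAbs.primeFactors.filter (fun p => w < p)).card
        ≤ ∑ _q ∈ (univ : Finset (Fin 3)).offDiag, 5 :=
          sum_le_sum fun q hq => (hr q.1 q.2 (mem_offDiag.1 hq).2.2).2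
      _ = 30 := by rw [sum_const, offDiag_card]; simp
  have h3 : ∏ p ∈ P, (1 - (nuB (Q w r) p : ℝ) / p) ≤
      ∏ p ∈ P, ((1 - 1 / (p : ℝ)) ^ 3 * (if Bad r p then 8 else 1)) := by
    refine prod_le_prod (fun p hp => ?_) (fun p hp => ?_)
    · have hp0 : (0 : ℝ) < p := by exact_mod_cast (hPp p hp).1.pos
      have h4 : (nuB (Q w r) p : ℝ) / p ≤ 1 := by
        rw [div_le_one hp0]
        exact_mod_cast nuB_le _ p
      linarith
    · have hp0 : (0 : ℝ) < p := by exact_mod_cast (hPp p hp).1.pos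
      have hp2 : (2 : ℝ) ≤ p := by exact_mod_cast (hPp p hp).1.two_le
      have hx0 : 0 ≤ 1 / (p : ℝ) := by positivity
      have hx1 : 1 / (p : ℝ) ≤ 1 / 2 := one_div_le_one_div_of_le (by norm_num) hp2
      split_ifs with hb
      · have h4 : 0 ≤ (nuB (Q w r) p : ℝ) / p := by positivity
        have h5 : (1 / 2 : ℝ) ^ 3 ≤ (1 - 1 / (p : ℝ)) ^ 3 :=
          pow_le_pow_left₀ (by norm_num) (by linarith) 3
        linarith
      · have h4 : (3 : ℝ) / p ≤ (nuB (Q w r) p : ℝ) / p := by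
          refine div_le_div_of_nonneg_right ?_ hp0.le
          exact_mod_cast nu_good r (hPp p hp).1 (hPp p hp).2.1 hb
        have h5 : (3 : ℝ) / p = 3 * (1 / p) := by ring
        rw [mul_one]
        nlinarith [mul_nonneg (mul_nonneg hx0 hx0) (show 0 ≤ 3 - 1 / (p : ℝ) by linarith)]
  refine h3.trans ?_
  rw [prod_mul_distrib, prod_pow, mul_comm]
  have h4 : 0 ≤ (∏ p ∈ P, (1 - 1 / (p : ℝ))) ^ 3 :=
    pow_nonneg (prod_nonneg fun p hp => (one_sub_inv_pos (hPp p hp).1).le) 3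
  refine mul_le_mul_of_nonneg_right ?_ h4
  rw [prod_ite, prod_const, prod_const_one, mul_one]
  exact pow_le_pow_right₀ (by norm_num) hB

/-- **(TRI)** -/
theorem t_TRI : Pool.Agent.J4H81.GQ.S_TRI := by
  classical
  obtain ⟨K, x0, hK, hfund⟩ := sys_fund 3 (by norm_num) 1 one_pos
  obtain ⟨c₁, c₂, hc₁, hc₁₂, hV⟩ := cz_bounds
  have hc₂ : 0 < c₂ := hc₁.trans_le hc₁₂
  have hKr : (1 : ℝ) ≤ K := by exact_mod_cast hK
  have hK0 : (0 : ℝ) < K := by linarith
  have hat : Tendsto (fun n : ℕ => (n : ℝ)) atTop atTop := tendsto_natCast_atTop_atTop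
  -- choice of `N₀`
  have e1 : ∀ᶠ N : ℕ in atTop, (x0 : ℝ) + 3 ≤ (N : ℝ) ^ (1 / (K : ℝ)) :=
    ((tendsto_rpow_atTop (by positivity)).comp hat).eventually_ge_atTop _
  have e2 : ∀ᶠ N : ℕ in atTop, 2 * K * Real.log 2 ≤ Real.log N :=
    (Real.tendsto_log_atTop.comp hat).eventually_ge_atTop _
  have e3 : ∀ᶠ N : ℕ in atTop, Real.log N ≤ 1 / 2 * (N : ℝ) ^ (1 / (K : ℝ)) := by
    have h := ((isLittleO_log_rpow_atTop (show 0 < 1 / (K : ℝ) by positivity)).comp_tendsto hat).def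
      (show (0 : ℝ) < 1 / 2 by norm_num)
    filter_upwards [h] with N hN
    simp only [Function.comp] at hN
    rw [Real.norm_of_nonneg (by positivity : (0 : ℝ) ≤ (N : ℝ) ^ (1 / (K : ℝ)))] at hN
    exact (le_abs_self _).trans hN
  have e4 : ∀ᶠ N : ℕ in atTop, Real.log N ≤ 1 / 4 * (N : ℝ) ^ (1 / 6 : ℝ) := by
    have h := ((isLittleO_log_rpow_atTop (show (0 : ℝ) < 1 / 6 by norm_num)).comp_tendsto hat).def
      (show (0 : ℝ) < 1 / 4 by norm_num)
    filter_upwards [h] with N hN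
    simp only [Function.comp] at hN
    rw [Real.norm_of_nonneg (by positivity : (0 : ℝ) ≤ (N : ℝ) ^ (1 / 6 : ℝ))] at hN
    exact (le_abs_self _).trans hN
  obtain ⟨N₀, hN₀⟩ := eventually_atTop.1 ((e1.and e2).and (e3.and e4))
  refine ⟨2 * 8 ^ 30 * (2 * K * c₂ / c₁) ^ 3 + 1, by positivity, max N₀ 3, fun N w hN hw hwN r _ hr => ?_⟩
  obtain ⟨⟨g1, g2⟩, g3, g4⟩ := hN₀ N ((le_max_left _ _).trans hN)
  have hN3 : 3 ≤ N := (le_max_right _ _).trans hN
  have hw3 : 3 ≤ w := (le_max_right _ _).trans hw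
  have hNr : (3 : ℝ) ≤ N := by exact_mod_cast hN3
  have hN0 : (0 : ℝ) < N := by linarith
  obtain ⟨z, hz⟩ : ∃ z : ℕ, z = ⌊(N : ℝ) ^ (1 / (K : ℝ))⌋₊ := ⟨_, rfl⟩
  have hz1 : (z : ℝ) ≤ (N : ℝ) ^ (1 / (K : ℝ)) := by rw [hz]; exact Nat.floor_le (by positivity)
  have hz2 : (N : ℝ) ^ (1 / (K : ℝ)) < z + 1 := by rw [hz]; exact Nat.lt_floor_add_one _
  have hzx : x0 ≤ z := by
    have h : (x0 : ℝ) ≤ z := by linarith
    exact_mod_cast h
  have hzr : (2 : ℝ) ≤ z := by
    have h : (0 : ℝ) ≤ x0 := Nat.cast_nonneg _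
    linarith
  have hz2' : 2 ≤ z := by exact_mod_cast hzr
  have hzK : z ^ K ≤ N := by
    have h : (z : ℝ) ^ K ≤ N := by
      calc (z : ℝ) ^ K ≤ ((N : ℝ) ^ (1 / (K : ℝ))) ^ K := pow_le_pow_left₀ (by positivity) hz1 K
        _ = N := by
          rw [← Real.rpow_natCast, ← Real.rpow_mul hN0.le, one_div_mul_cancel hK0.ne', Real.rpow_one]
    exact_mod_cast h
  have hzN : z ≤ N := (Nat.le_self_pow (by omega) z).trans hzK
  have hwz : w ≤ z := by
    have h : (w : ℝ) ≤ z := by linarith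
    exact_mod_cast h
  -- the counting
  have hsub : (range N).filter (fun s => ∀ i, (r i + primorial w * s).Prime ∧ N < r i + primorial w * s) ⊆
      insert 0 ((Icc 1 N).filter (fun n : ℕ => ∀ p ∈ pz z, ¬ Q w r p n)) := by
    intro s hs
    rw [mem_filter, mem_range] at hs
    obtain ⟨h1, h2⟩ := hs
    rcases Nat.eq_zero_or_pos s with h3 | h3
    · exact mem_insert.2 (Or.inl h3)
    · refine mem_insert.2 (Or.inr (mem_filter.2 ⟨mem_Icc.2 ⟨h3, h1.le⟩, fun p hp hQ => ?_⟩))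
      obtain ⟨h4, i, h5⟩ := hQ
      obtain ⟨h6, h7⟩ := mem_pz.1 hp
      have h8 := (Nat.prime_dvd_prime_iff_eq h7 (h2 i).1).1 h5
      have h9 := (h2 i).2
      omega
  have hcard := (card_le_card hsub).trans (card_insert_le _ _)
  have hcardr : (((range N).filter (fun s => ∀ i, (r i + primorial w * s).Prime ∧
      N < r i + primorial w * s)).card : ℝ) ≤
      ((((Icc 1 N).filter (fun n : ℕ => ∀ p ∈ pz z, ¬ Q w r p n)).card : ℕ) : ℝ) + 1 := by
    exact_mod_cast hcard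
  have hf := (abs_le.1 (hfund N z hzx hzK (Q w r) (perB w r) N)).2
  have hp := prod_le hwz r hr
  have hpN : (N : ℝ) * ∏ p ∈ pz z, (1 - (nuB (Q w r) p : ℝ) / p) ≤ N * (8 ^ 30 * (V z / V w) ^ 3) :=
    mul_le_mul_of_nonneg_left hp hN0.le
  -- Mertens
  have hlogN : 0 < Real.log N := Real.log_pos (by linarith)
  have hlogw : 1 / 2 ≤ Real.log w := by
    have h1 : Real.log 2 ≤ Real.log w := Real.log_le_log (by norm_num) (by exact_mod_cast (by omega : 2 ≤ w))
    have := Real.log_two_gt_d9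
    linarith
  have hlogz : Real.log N / (2 * K) ≤ Real.log z := by
    have h1 : (N : ℝ) ^ (1 / (K : ℝ)) / 2 ≤ z := by
      have : (1 : ℝ) ≤ z := by linarith
      linarith
    have h2 := Real.log_le_log (by positivity) h1
    rw [Real.log_div (by positivity) (by norm_num), Real.log_rpow hN0] at h2
    have h3 : Real.log 2 ≤ Real.log N / (2 * K) := by
      rw [le_div_iff₀ (by positivity)]
      linarith
    have h4 : 1 / (K : ℝ) * Real.log N = 2 * (Real.log N / (2 * K)) := by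
      field_simp
    linarith
  have hVz : V z ≤ 2 * K * c₂ / Real.log N := by
    have h1 := (hV z hz2').2
    rw [le_div_iff₀ hlogN]
    have h2 : V z * (Real.log N / (2 * K)) ≤ c₂ :=
      (mul_le_mul_of_nonneg_left hlogz (V_pos z).le).trans h1
    have h3 : V z * Real.log N = V z * (Real.log N / (2 * K)) * (2 * K) := by
      field_simp
    rw [h3]
    nlinarith
  have hVw : c₁ / Real.log w ≤ V w := by
    rw [div_le_iff₀ (by linarith)]
    exact (hV w (by omega)).1
  have hq : V z / V w ≤ 2 * K * c₂ / c₁ * (Real.log w / Real.log N) := by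
    rw [div_le_iff₀ (V_pos w)]
    have h1 : 0 ≤ 2 * K * c₂ / c₁ * (Real.log w / Real.log N) := by
      have : 0 < Real.log w := by linarith
      positivity
    have h2 := mul_le_mul_of_nonneg_left hVw h1
    refine hVz.trans (le_trans (le_of_eq ?_) h2)
    have : Real.log w ≠ 0 := by
      have : 0 < Real.log w := by linarith
      exact this.ne'
    field_simp
  have hq3 : (V z / V w) ^ 3 ≤ (2 * K * c₂ / c₁) ^ 3 * (Real.log w / Real.log N) ^ 3 := by
    rw [← mul_pow]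
    exact pow_le_pow_left₀ (div_nonneg (V_pos z).le (V_pos w).le) hq 3
  -- the error terms
  have herr : √(N : ℝ) + 1 ≤ N * (Real.log w / Real.log N) ^ 3 := by
    have h1 : (Real.log N) ^ 3 ≤ 1 / 64 * √(N : ℝ) := by
      calc (Real.log N) ^ 3 ≤ (1 / 4 * (N : ℝ) ^ (1 / 6 : ℝ)) ^ 3 := pow_le_pow_left₀ hlogN.le g4 3
        _ = 1 / 64 * √(N : ℝ) := by
          rw [mul_pow, ← Real.rpow_natCast ((N : ℝ) ^ (1 / 6 : ℝ)), ← Real.rpow_mul hN0.le,
            Real.sqrt_eq_rpow]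
          norm_num
    have h2 : 1 ≤ √(N : ℝ) := Real.one_le_sqrt.2 (by linarith)
    have h3 : √(N : ℝ) * √(N : ℝ) = N := Real.mul_self_sqrt hN0.le
    have h4 : (1 / 2 : ℝ) ^ 3 ≤ Real.log w ^ 3 := pow_le_pow_left₀ (by norm_num) hlogw 3
    rw [div_pow, ← mul_div_assoc, le_div_iff₀ (by positivity)]
    calc (√(N : ℝ) + 1) * Real.log N ^ 3 ≤ (2 * √(N : ℝ)) * (1 / 64 * √(N : ℝ)) :=
          mul_le_mul (by linarith) h1 (by positivity) (by positivity)
      _ = 1 / 32 * (√(N : ℝ) * √(N : ℝ)) := by ring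
      _ = 1 / 32 * N := by rw [h3]
      _ ≤ N * Real.log w ^ 3 := by nlinarith
  have hX : 0 ≤ (Real.log w / Real.log N) ^ 3 := by
    have : 0 < Real.log w := by linarith
    positivity
  have h5 : (N : ℝ) * (8 ^ 30 * (V z / V w) ^ 3) ≤
      8 ^ 30 * (2 * K * c₂ / c₁) ^ 3 * (N * (Real.log w / Real.log N) ^ 3) := by
    calc (N : ℝ) * (8 ^ 30 * (V z / V w) ^ 3) ≤
        N * (8 ^ 30 * ((2 * K * c₂ / c₁) ^ 3 * (Real.log w / Real.log N) ^ 3)) :=
          mul_le_mul_of_nonneg_left (mul_le_mul_of_nonneg_left hq3 (by positivity)) hN0.le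
      _ = _ := by ring
  calc _ ≤ _ := hcardr
    _ ≤ 2 * (8 ^ 30 * (2 * K * c₂ / c₁) ^ 3 * (N * (Real.log w / Real.log N) ^ 3)) + (√(N : ℝ) + 1) := by
        linarith
    _ ≤ 2 * (8 ^ 30 * (2 * K * c₂ / c₁) ^ 3 * (N * (Real.log w / Real.log N) ^ 3)) +
        N * (Real.log w / Real.log N) ^ 3 := by linarith
    _ = _ := by ring

end Pool.Agent.J4H67.GQ
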